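import Mathlib

set_option autoImplicit false

namespace Pool.Agent.Helper84_Collatz

/-! ### The accelerated map on `ℤ`, together with a counter of odd steps -/

/-- `(x, c) ↦ (T x, c + [x odd])`. -/
def S (p : ℤ × ℤ) : ℤ × ℤ :=
  if p.1 % 2 = 0 then (p.1 / 2, p.2) else ((3 * p.1 + 1) / 2, p.2 + 1)

theorem S_even (y c : ℤ) : S (2 * y, c) = (y, c) := by
  unfold S
  have h : (2 * y) % 2 = 0 := by omega
  have h' : (2 * y) / 2 = y := by omega
  simp [h, h']

theorem S_odd (y c : ℤ) : S (2 * y + 1, c) = (3 * y + 2, c + 1) := by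
  unfold S
  have h : (2 * y + 1) % 2 = 1 := by omega
  have h' : (3 * (2 * y + 1) + 1) / 2 = 3 * y + 2 := by omega
  simp [h, h']

theorem S_shift_one (x c d : ℤ) : S (x, c + d) = ((S (x, c)).1, (S (x, c)).2 + d) := by
  rcases Int.even_or_odd' x with ⟨y, rfl | rfl⟩
  · rw [S_even, S_even]
  · rw [S_odd, S_odd]; simp only [Prod.mk.injEq, true_and]; ring

theorem S_shift (k : ℕ) : ∀ (x c d : ℤ),
    S^[k] (x, c + d) = ((S^[k] (x, c)).1, (S^[k] (x, c)).2 + d) := by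
  induction k with
  | zero => intro x c d; rfl
  | succ k ih =>
    intro x c d
    rw [Function.iterate_succ_apply', Function.iterate_succ_apply', ih, S_shift_one]

/-- The pair `X = 3 ^ e * y + δ`, `y` coalesces in the same number of steps, and with `e` more
odd steps of `y` than of `X`, for all `y` in some residue class modulo a power of two. -/
def Good (e : ℕ) (δ : ℤ) : Prop :=
  ∃ (K : ℕ) (ρ : ℤ), ∀ y : ℤ, (2 : ℤ) ^ K ∣ y - ρ →
    S^[K] (3 ^ e * y + δ, (e : ℤ)) = S^[K] (y, 0)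

theorem good_zero : Good 0 0 := ⟨0, 0, fun y _ => by simp⟩

theorem good_even {e : ℕ} {δ : ℤ} (h : Good e δ) : Good e (2 * δ) := by
  obtain ⟨K, ρ, h⟩ := h
  refine ⟨K + 1, 2 * ρ, fun y hy => ?_⟩
  obtain ⟨z, hz⟩ := hy
  have hy' : y = 2 * (ρ + 2 ^ K * z) := by rw [pow_succ] at hz; linarith
  rw [Function.iterate_succ_apply, Function.iterate_succ_apply, hy', S_even,
    show (3 : ℤ) ^ e * (2 * (ρ + 2 ^ K * z)) + 2 * δ = 2 * (3 ^ e * (ρ + 2 ^ K * z) + δ) by ring,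
    S_even]
  exact h _ ⟨z, by ring⟩

theorem exists_inv3 (K : ℕ) (r : ℤ) : ∃ w : ℤ, (2 : ℤ) ^ K ∣ 3 * w - r := by
  have hc : IsCoprime (3 : ℤ) (2 ^ K) := by
    apply IsCoprime.pow_right
    rw [Int.isCoprime_iff_gcd_eq_one]; decide
  obtain ⟨u, v, huv⟩ := hc
  refine ⟨u * r, -v * r, ?_⟩
  linear_combination r * huv

theorem exists_inv3pow (K a : ℕ) (r : ℤ) : ∃ w : ℤ, (2 : ℤ) ^ K ∣ 3 ^ a * w - r := by
  have hc : IsCoprime ((3 : ℤ) ^ a) (2 ^ K) := by
    apply IsCoprime.pow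
    rw [Int.isCoprime_iff_gcd_eq_one]; decide
  obtain ⟨u, v, huv⟩ := hc
  refine ⟨u * r, -v * r, ?_⟩
  linear_combination r * huv

theorem good_down {e : ℕ} {δ : ℤ} (h : Good e δ) : Good (e + 1) (2 * δ + 3 ^ e) := by
  obtain ⟨K, ρ, h⟩ := h
  obtain ⟨w₀, hw₀⟩ := exists_inv3 K (ρ - 2)
  refine ⟨K + 1, 2 * w₀ + 1, fun y hy => ?_⟩
  obtain ⟨z, hz⟩ := hy
  have hy' : y = 2 * (w₀ + 2 ^ K * z) + 1 := by rw [pow_succ] at hz; linarith
  rw [Function.iterate_succ_apply, Function.iterate_succ_apply, hy', S_odd,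
    show (3 : ℤ) ^ (e + 1) * (2 * (w₀ + 2 ^ K * z) + 1) + (2 * δ + 3 ^ e)
      = 2 * (3 ^ e * (3 * (w₀ + 2 ^ K * z) + 2) + δ) by ring, S_even, Nat.cast_add, Nat.cast_one]
  rw [S_shift K _ (e : ℤ) 1, S_shift K _ 0 1, h]
  obtain ⟨v, hv⟩ := hw₀
  refine ⟨v + 3 * z, ?_⟩
  linear_combination hv

theorem good_up {e : ℕ} {δ : ℤ} (h : Good (e + 1) (3 * δ + 2)) : Good e (2 * δ + 1) := by
  obtain ⟨K, ρ, h⟩ := h
  refine ⟨K + 1, 2 * ρ, fun y hy => ?_⟩
  obtain ⟨z, hz⟩ := hy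
  have hy' : y = 2 * (ρ + 2 ^ K * z) := by rw [pow_succ] at hz; linarith
  rw [Function.iterate_succ_apply, Function.iterate_succ_apply, hy', S_even,
    show (3 : ℤ) ^ e * (2 * (ρ + 2 ^ K * z)) + (2 * δ + 1)
      = 2 * (3 ^ e * (ρ + 2 ^ K * z) + δ) + 1 by ring, S_odd]
  have := h (ρ + 2 ^ K * z) ⟨z, by ring⟩
  rw [← this]
  push_cast
  congr 2
  ring

theorem good_bothodd {e : ℕ} {δ η : ℤ} (hη : 2 * η = 1 - 3 ^ e) (h : Good e (3 * δ + η)) :
    Good e (2 * δ) := by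
  obtain ⟨K, ρ, h⟩ := h
  obtain ⟨w₀, hw₀⟩ := exists_inv3 K (ρ - 2)
  refine ⟨K + 1, 2 * w₀ + 1, fun y hy => ?_⟩
  obtain ⟨z, hz⟩ := hy
  have hy' : y = 2 * (w₀ + 2 ^ K * z) + 1 := by rw [pow_succ] at hz; linarith
  rw [Function.iterate_succ_apply, Function.iterate_succ_apply, hy', S_odd,
    show (3 : ℤ) ^ e * (2 * (w₀ + 2 ^ K * z) + 1) + 2 * δ
      = 2 * (3 ^ e * (w₀ + 2 ^ K * z) + δ - η) + 1 by linear_combination hη, S_odd]
  have h1 : 3 * ((3 : ℤ) ^ e * (w₀ + 2 ^ K * z) + δ - η) + 2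
      = 3 ^ e * (3 * (w₀ + 2 ^ K * z) + 2) + (3 * δ + η) := by
    linear_combination (-2) * hη
  rw [h1, S_shift K _ (e : ℤ) 1, S_shift K _ 0 1, h]
  obtain ⟨v, hv⟩ := hw₀
  refine ⟨v + 3 * z, ?_⟩
  linear_combination hv

theorem good_neg {δ : ℤ} (h : Good 0 δ) : Good 0 (-δ) := by
  obtain ⟨K, ρ, h⟩ := h
  refine ⟨K, ρ + δ, fun y hy => ?_⟩
  have h1 := h (y - δ) (by convert hy using 1; ring)
  have h2 : (3 : ℤ) ^ 0 * (y - δ) + δ = y := by ring
  have h3 : (3 : ℤ) ^ 0 * y + -δ = y - δ := by ring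
  rw [h2] at h1
  rw [h3]
  simpa using h1.symm

theorem good_base : ∀ (n : ℕ) (δ : ℤ), δ.natAbs = n → Good 0 δ := by
  intro n
  induction n using Nat.strong_induction_on with
  | _ n ih =>
    -- the case `δ = 4 u + 3`
    have key : ∀ u : ℤ, (4 * u + 3).natAbs = n → Good 0 (4 * u + 3) := by
      intro u hu
      by_cases hu1 : u = -1
      · subst hu1
        have h0 : Good 0 1 := by
          have h2 : Good 1 1 := by
            have := good_down good_zero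
            simpa using this
          have h3 : Good (0 + 1) (3 * 0 + 2) := by
            have := good_even h2
            simpa using this
          have := good_up h3
          simpa using this
        have := good_neg h0
        simpa using this
      · have h1 : Good 0 (3 * u + 2) := ih _ (by omega) _ rfl
        have h2 := good_down h1
        have h3 : Good (0 + 1) (3 * (2 * u + 1) + 2) := by
          convert h2 using 1; ring
        have h4 := good_up h3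
        convert h4 using 1; ring
    intro δ hδ
    by_cases h0 : δ = 0
    · subst h0; exact good_zero
    rcases Int.even_or_odd' δ with ⟨y, rfl | rfl⟩
    · exact good_even (ih _ (by omega) y rfl)
    · rcases Int.even_or_odd' y with ⟨u, rfl | rfl⟩
      · have h1 := key (-u - 1) (by omega)
        have h2 := good_neg h1
        convert h2 using 1; ring
      · have h1 := key u (by omega)
        convert h1 using 1; ring

theorem good_step (e : ℕ) (ih : ∀ δ, Good e δ) : ∀ δ, Good (e + 1) δ := by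
  have odd3 : ∃ t : ℤ, (3 : ℤ) ^ e = 2 * t + 1 := by
    have : Odd ((3 : ℤ) ^ e) := Odd.pow (by decide)
    exact this
  obtain ⟨t, ht⟩ := odd3
  have hnz : ∀ (n : ℕ) (δ : ℤ), δ.natAbs = n → δ ≠ 0 → Good (e + 1) δ := by
    intro n
    induction n using Nat.strong_induction_on with
    | _ n ihn =>
      intro δ hδ h0
      rcases Int.even_or_odd' δ with ⟨y, rfl | rfl⟩
      · exact good_even (ihn _ (by omega) y rfl (by omega))
      · have h1 := good_down (ih (y - t))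
        convert h1 using 1
        rw [ht]; ring
  intro δ
  by_cases h0 : δ = 0
  · subst h0
    have hη : 2 * (-(3 * t + 1)) = 1 - (3 : ℤ) ^ (e + 1) := by rw [pow_succ, ht]; ring
    have h1 : Good (e + 1) (3 * 0 + (-(3 * t + 1))) := hnz _ _ rfl (by omega)
    have h2 := good_bothodd hη h1
    simpa using h2
  · exact hnz _ _ rfl h0

theorem good_all (e : ℕ) : ∀ δ, Good e δ := by
  induction e with
  | zero => intro δ; exact good_base _ δ rfl
  | succ e ih => exact good_step e ih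

/-- On a residue class modulo `2 ^ K` the first `K` steps are affine. -/
theorem periodic (K : ℕ) (r : ℤ) : ∃ (a : ℕ) (s : ℤ), ∀ m : ℤ,
    S^[K] (2 ^ K * m + r, 0) = (3 ^ a * m + s, (a : ℤ)) := by
  induction K with
  | zero => exact ⟨0, r, fun m => by simp⟩
  | succ K ih =>
    obtain ⟨a, s, h⟩ := ih
    have h' : ∀ m : ℤ, S^[K + 1] (2 ^ (K + 1) * m + r, 0) = S (3 ^ a * (2 * m) + s, (a : ℤ)) := by
      intro m
      rw [Function.iterate_succ_apply', ← h (2 * m), pow_succ, mul_assoc]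
    rcases Int.even_or_odd' s with ⟨y, hy | hy⟩
    · refine ⟨a, y, fun m => ?_⟩
      rw [h', hy, show (3 : ℤ) ^ a * (2 * m) + 2 * y = 2 * (3 ^ a * m + y) by ring, S_even]
    · refine ⟨a + 1, 3 * y + 2, fun m => ?_⟩
      rw [h', hy, show (3 : ℤ) ^ a * (2 * m) + (2 * y + 1) = 2 * (3 ^ a * m + y) + 1 by ring, S_odd]
      push_cast
      congr 1
      ring

/-- `L` consecutive integers coalesce simultaneously on some residue class. -/
theorem multi (L : ℕ) : ∃ (K : ℕ) (r : ℤ), ∀ (m : ℤ) (i : ℕ), i < L →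
    S^[K] (2 ^ K * m + r + i, 0) = S^[K] (2 ^ K * m + r, 0) := by
  induction L with
  | zero => exact ⟨0, 0, fun m i hi => absurd hi (by omega)⟩
  | succ L ih =>
    obtain ⟨K, r, h⟩ := ih
    obtain ⟨a, s, hs⟩ := periodic K r
    obtain ⟨b, u, hu⟩ := periodic K (r + L)
    -- it suffices to coalesce the trajectories of `n` and `n + L`
    suffices hsuf : ∃ (K' : ℕ) (m₀ : ℤ), ∀ m : ℤ, (2 : ℤ) ^ K' ∣ m - m₀ →
        S^[K'] (3 ^ b * m + u, (b : ℤ)) = S^[K'] (3 ^ a * m + s, (a : ℤ)) by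
      obtain ⟨K', m₀, h'⟩ := hsuf
      refine ⟨K' + K, r + 2 ^ K * m₀, fun m i hi => ?_⟩
      have e1 : (2 : ℤ) ^ (K' + K) * m + (r + 2 ^ K * m₀) = 2 ^ K * (2 ^ K' * m + m₀) + r := by
        ring
      rw [Function.iterate_add_apply, Function.iterate_add_apply, e1]
      rcases Nat.lt_succ_iff_lt_or_eq.1 hi with hi' | rfl
      · rw [h _ _ hi']
      · rw [hs, add_assoc, hu]
        exact h' _ ⟨m, by ring⟩
    rcases le_total a b with hab | hab
    · obtain ⟨e, rfl⟩ := Nat.exists_eq_add_of_le hab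
      obtain ⟨K', ρ, hg⟩ := good_all e (u - 3 ^ e * s)
      obtain ⟨m₀, hm₀⟩ := exists_inv3pow K' a (ρ - s)
      refine ⟨K', m₀, fun m hm => ?_⟩
      have h1 := hg (3 ^ a * m + s) (by
        have : (3 : ℤ) ^ a * m + s - ρ = 3 ^ a * (m - m₀) + (3 ^ a * m₀ - (ρ - s)) := by ring
        rw [this]
        exact dvd_add (Dvd.dvd.mul_left hm _) hm₀)
      have h2 : (3 : ℤ) ^ e * (3 ^ a * m + s) + (u - 3 ^ e * s) = 3 ^ (a + e) * m + u := by ring
      rw [h2] at h1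
      have h3 : ((a + e : ℕ) : ℤ) = (e : ℤ) + a := by push_cast; ring
      rw [h3, S_shift, h1]
      have h4 := S_shift K' (3 ^ a * m + s) 0 (a : ℤ)
      rw [zero_add] at h4
      rw [h4]
    · obtain ⟨e, rfl⟩ := Nat.exists_eq_add_of_le hab
      obtain ⟨K', ρ, hg⟩ := good_all e (s - 3 ^ e * u)
      obtain ⟨m₀, hm₀⟩ := exists_inv3pow K' b (ρ - u)
      refine ⟨K', m₀, fun m hm => ?_⟩
      have h1 := hg (3 ^ b * m + u) (by
        have : (3 : ℤ) ^ b * m + u - ρ = 3 ^ b * (m - m₀) + (3 ^ b * m₀ - (ρ - u)) := by ring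
        rw [this]
        exact dvd_add (Dvd.dvd.mul_left hm _) hm₀)
      have h2 : (3 : ℤ) ^ e * (3 ^ b * m + u) + (s - 3 ^ e * u) = 3 ^ (b + e) * m + s := by ring
      rw [h2] at h1
      have h3 : ((b + e : ℕ) : ℤ) = (e : ℤ) + b := by push_cast; ring
      rw [h3, S_shift K' _ (e : ℤ) (b : ℤ), h1]
      have h4 := S_shift K' (3 ^ b * m + u) 0 (b : ℤ)
      rw [zero_add] at h4
      rw [h4]

/-! ### Powers of two fill all residue classes prime to three -/

theorem gen_aux (a : ℕ) : ∃ v : ℤ, (2 : ℤ) ^ (2 * 3 ^ a) = 1 + 3 ^ (a + 1) * v ∧ ¬ (3 : ℤ) ∣ v := by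
  induction a with
  | zero => exact ⟨1, by norm_num, by norm_num⟩
  | succ a ih =>
    obtain ⟨v, hv, hv3⟩ := ih
    refine ⟨v + 3 ^ (a + 1) * v ^ 2 + 3 ^ (2 * a + 1) * v ^ 3, ?_, ?_⟩
    · have : (2 : ℤ) ^ (2 * 3 ^ (a + 1)) = (2 ^ (2 * 3 ^ a)) ^ 3 := by
        rw [← pow_mul]; congr 1; ring
      rw [this, hv]
      ring
    · intro h
      apply hv3
      have h1 : (3 : ℤ) ∣ 3 ^ (a + 1) * v ^ 2 + 3 ^ (2 * a + 1) * v ^ 3 := by
        refine dvd_add ?_ ?_
        · exact Dvd.dvd.mul_right (dvd_pow_self _ (by omega)) _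
        · exact Dvd.dvd.mul_right (dvd_pow_self _ (by omega)) _
      have h2 := dvd_sub h h1
      have h3 : v + 3 ^ (a + 1) * v ^ 2 + 3 ^ (2 * a + 1) * v ^ 3 -
          (3 ^ (a + 1) * v ^ 2 + 3 ^ (2 * a + 1) * v ^ 3) = v := by ring
      rwa [h3] at h2

theorem pow_two_mod (a : ℕ) (s : ℤ) (hs : ¬ (3 : ℤ) ∣ s) : ∃ j : ℕ, (3 : ℤ) ^ (a + 1) ∣ 2 ^ j - s := by
  induction a with
  | zero =>
    have h3 : s % 3 = 1 ∨ s % 3 = 2 := by omega
    rcases h3 with h | h
    · exact ⟨0, by norm_num; omega⟩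
    · exact ⟨1, by norm_num; omega⟩
  | succ a ih =>
    obtain ⟨j, w, hw⟩ := ih
    obtain ⟨v, hv, hv3⟩ := gen_aux a
    -- choose i with w + s v i divisible by 3
    have hi : ∃ i : ℕ, (3 : ℤ) ∣ w + s * v * i := by
      have hsv : ¬ (3 : ℤ) ∣ s * v := by
        intro h
        rcases Int.prime_three.dvd_or_dvd h with h | h
        · exact hs h
        · exact hv3 h
      generalize s * v = q at hsv
      have hq : q % 3 = 1 ∨ q % 3 = 2 := by omega
      have hw3 : w % 3 = 0 ∨ w % 3 = 1 ∨ w % 3 = 2 := by omega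
      rcases hw3 with h | h | h
      · exact ⟨0, by push_cast; omega⟩
      · rcases hq with hq | hq
        · exact ⟨2, by push_cast; omega⟩
        · exact ⟨1, by push_cast; omega⟩
      · rcases hq with hq | hq
        · exact ⟨1, by push_cast; omega⟩
        · exact ⟨2, by push_cast; omega⟩
    obtain ⟨i, hi⟩ := hi
    refine ⟨j + (2 * 3 ^ a) * i, ?_⟩
    have hpow : ∃ z : ℤ, (2 : ℤ) ^ ((2 * 3 ^ a) * i) = 1 + 3 ^ (a + 1) * (v * i) + 3 ^ (a + 2) * z := by
      rw [pow_mul, hv]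
      clear hi
      induction i with
      | zero => exact ⟨0, by simp⟩
      | succ i ihi =>
        obtain ⟨z, hz⟩ := ihi
        refine ⟨z + 3 ^ a * v ^ 2 * i + 3 ^ (a + 1) * v * z, ?_⟩
        rw [pow_succ, hz]
        push_cast
        ring
    obtain ⟨z, hz⟩ := hpow
    obtain ⟨q, hq⟩ := hi
    rw [pow_add (2 : ℤ) j, hz]
    have h2j : (2 : ℤ) ^ j = s + 3 ^ (a + 1) * w := by linear_combination hw
    rw [h2j]
    refine ⟨q + 3 ^ a * w * v * i + (s + 3 ^ (a + 1) * w) * z, ?_⟩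
    have h3 : (3 : ℤ) ^ (a + 2) = 3 ^ (a + 1) * 3 := by ring
    linear_combination (3 : ℤ) ^ (a + 1) * hq

theorem pow_two_mod_large (a : ℕ) (s : ℤ) (hs : a ≠ 0 → ¬ (3 : ℤ) ∣ s) (B : ℕ) :
    ∃ j : ℕ, B ≤ j ∧ (3 : ℤ) ^ a ∣ 2 ^ j - s := by
  rcases Nat.eq_zero_or_pos a with rfl | ha
  · exact ⟨B, le_rfl, by simp⟩
  · obtain ⟨a, rfl⟩ : ∃ a', a = a' + 1 := ⟨a - 1, by omega⟩
    obtain ⟨j, hj⟩ := pow_two_mod a s (hs (by omega))
    obtain ⟨v, hv, -⟩ := gen_aux a
    refine ⟨j + (2 * 3 ^ a) * B, ?_, ?_⟩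
    · have : 0 < 3 ^ a := by positivity
      nlinarith
    · have h1 : (3 : ℤ) ^ (a + 1) ∣ (2 ^ (2 * 3 ^ a)) ^ B - 1 := by
        have := sub_dvd_pow_sub_pow ((2 : ℤ) ^ (2 * 3 ^ a)) 1 B
        rw [one_pow] at this
        exact dvd_trans ⟨v, by rw [hv]; ring⟩ this
      rw [pow_add (2 : ℤ) j, pow_mul]
      have : (2 : ℤ) ^ j * (2 ^ (2 * 3 ^ a)) ^ B - s = 2 ^ j * ((2 ^ (2 * 3 ^ a)) ^ B - 1) + (2 ^ j - s) := by
        ring
      rw [this]
      exact dvd_add (Dvd.dvd.mul_left h1 _) hj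

/-- After at least one odd step, the value is prime to three. -/
theorem not_three_dvd (K : ℕ) (x : ℤ) :
    0 ≤ (S^[K] (x, 0)).2 ∧ ((S^[K] (x, 0)).2 ≠ 0 → ¬ (3 : ℤ) ∣ (S^[K] (x, 0)).1) := by
  induction K with
  | zero => simp
  | succ K ih =>
    rw [Function.iterate_succ_apply']
    obtain ⟨h0, h1⟩ := ih
    generalize S^[K] (x, 0) = p at h0 h1
    obtain ⟨z, c⟩ := p
    simp only at h0 h1
    rcases Int.even_or_odd' z with ⟨y, rfl | rfl⟩
    · rw [S_even]
      refine ⟨h0, fun hc hd => h1 hc ?_⟩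
      exact Dvd.dvd.mul_left hd 2
    · rw [S_odd]
      refine ⟨by simp only; omega, fun _ hd => ?_⟩
      simp only at hd
      omega

end Pool.Agent.Helper84_Collatz
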